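import Mathlib
import Pool.Agent.Run7.h276.Metric
import Pool.Agent.Run7.h276.Nerve

/-!
# A system of mean dimension zero with positive metric mean dimension for every metric

The definitions follow the problem file, for an action of `ℤ^k` written additively.
-/

set_option autoImplicit false
set_option linter.unusedVariables false
set_option linter.deprecated false
open Filter Topology
open scoped ENNReal

namespace Pool.Agent.Results.MP_473a82_an.NoGoodMetric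

/-- `d` is a metric on `X` which induces the topology of `X` -/
structure CompatibleMetric (X : Type) [TopologicalSpace X] (d : X → X → ℝ) : Prop where
  eq_zero_iff : ∀ x y, d x y = 0 ↔ x = y
  symm : ∀ x y, d x y = d y x
  triangle : ∀ x y z, d x z ≤ d x y + d y z
  isOpen_iff : ∀ U : Set X, IsOpen U ↔ ∀ x ∈ U, ∃ r > 0, ∀ y, d x y < r → y ∈ U

/-- `d_N (x, y)`, the maximum of `d (g + x, g + y)` over `g` in `{0, ..., N - 1} ^ k` -/
noncomputable def dN {X : Type} (k : ℕ) [AddAction (Fin k → ℤ) X] (d : X → X → ℝ) (N : ℕ)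
    (x y : X) : ℝ :=
  ⨆ g : {g : Fin k → ℤ // ∀ i, 0 ≤ g i ∧ g i < (N : ℤ)}, d (g.1 +ᵥ x) (g.1 +ᵥ y)

/-- `Widim_ε (Y, ρ)`: the least `m` such that there is a continuous map from `Y` to a finite
simplicial complex of dimension at most `m` all of whose fibres have `ρ`-diameter `< ε` -/
noncomputable def Widim {Y : Type} [TopologicalSpace Y] (ρ : Y → Y → ℝ) (ε : ℝ) : ℝ≥0∞ :=
  ⨅ (m : ℕ) (_ : ∃ (n : ℕ) (P : Geometry.SimplicialComplex ℝ (Fin n → ℝ)) (f : Y → Fin n → ℝ),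
    P.faces.Finite ∧ (∀ s ∈ P.faces, s.card ≤ m + 1) ∧ Continuous f ∧ (∀ y, f y ∈ P.space) ∧
      ∃ δ < ε, ∀ x y, f x = f y → ρ x y ≤ δ), (m : ℝ≥0∞)

/-- mean dimension, computed with the metric `d` -/
noncomputable def mdim {X : Type} [TopologicalSpace X] (k : ℕ) [AddAction (Fin k → ℤ) X]
    (d : X → X → ℝ) : ℝ≥0∞ :=
  limsup (fun ε : ℝ => limsup (fun N : ℕ => Widim (dN k d N) ε / (N : ℝ≥0∞) ^ k) atTop)
    (𝓝[>] (0 : ℝ))

/-- the least cardinality of an open cover of `Y` by sets of `ρ`-diameter `< ε` -/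
noncomputable def covNum {Y : Type} [TopologicalSpace Y] (ρ : Y → Y → ℝ) (ε : ℝ) : ℕ :=
  sInf {c : ℕ | ∃ F : Finset (Set Y), F.card = c ∧ (∀ A ∈ F, IsOpen A) ∧
    ⋃₀ (F : Set (Set Y)) = Set.univ ∧ ∀ A ∈ F, ∃ δ < ε, ∀ x ∈ A, ∀ y ∈ A, ρ x y ≤ δ}

/-- (lower) metric mean dimension -/
noncomputable def mmdim {X : Type} [TopologicalSpace X] (k : ℕ) [AddAction (Fin k → ℤ) X]
    (d : X → X → ℝ) : ℝ≥0∞ :=
  liminf (fun ε : ℝ => liminf (fun N : ℕ =>
      ENNReal.ofReal (Real.log (covNum (dN k d N) ε : ℝ) / (N : ℝ) ^ k)) atTop /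
    ENNReal.ofReal (Real.log (1 / ε))) (𝓝[>] (0 : ℝ))

open Run7.h276.Sys Run7.h276.Main Run7.h276.Metric

theorem dN_le {d : X → X → ℝ} (h : Compat d) {N : ℕ} {x y : X} {δ : ℝ} (hδ : 0 ≤ δ)
    (H : ∀ i < N, d ((⇑S)^[i] x) ((⇑S)^[i] y) ≤ δ) : dN 1 d N x y ≤ δ := by
  refine Real.iSup_le (fun g => ?_) hδ
  obtain ⟨h1, h2⟩ := g.2 0
  have h3 : g.1 = ge ((g.1 0).toNat : ℤ) := by
    funext i
    have : i = 0 := Subsingleton.elim _ _
    subst this
    simp only [ge]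
    omega
  rw [h3, ← S_iterate, ← S_iterate]
  exact H _ (by omega)

theorem le_dN {d : X → X → ℝ} (h : Compat d) {N : ℕ} {x y : X} {i : ℕ} (hi : i < N) :
    d ((⇑S)^[i] x) ((⇑S)^[i] y) ≤ dN 1 d N x y := by
  rw [S_iterate, S_iterate]
  have hg : ∀ l, 0 ≤ (ge (i : ℤ)) l ∧ (ge (i : ℤ)) l < (N : ℤ) := by
    intro l
    simp only [ge]
    omega
  have hfin : Finite {g : Fin 1 → ℤ // ∀ i, 0 ≤ g i ∧ g i < (N : ℤ)} := by
    have hinj : Function.Injective (fun g : {g : Fin 1 → ℤ // ∀ i, 0 ≤ g i ∧ g i < (N : ℤ)} =>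
        (⟨(g.1 0).toNat, by have := g.2 0; omega⟩ : Fin N)) := by
      intro g g' hgg
      apply Subtype.ext
      funext l
      have hl : l = 0 := Subsingleton.elim _ _
      subst hl
      have h1 := g.2 0
      have h2 := g'.2 0
      simp only [Fin.mk.injEq] at hgg
      omega
    exact Finite.of_injective _ hinj
  exact le_ciSup (f := fun g : {g : Fin 1 → ℤ // ∀ i, 0 ≤ g i ∧ g i < (N : ℤ)} =>
    d (g.1 +ᵥ x) (g.1 +ᵥ y)) (Set.finite_range _).bddAbove ⟨ge i, hg⟩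

theorem mdim_zero {d : X → X → ℝ} (h : Compat d) : mdim 1 d = 0 := by
  classical
  unfold mdim
  rw [← nonpos_iff_eq_zero]
  refine limsup_le_of_le (by isBoundedDefault) ?_
  filter_upwards [self_mem_nhdsWithin] with ε hε
  have hε' : (0 : ℝ) < ε := hε
  apply le_of_forall_pos_le_add
  intro τ hτ
  rw [zero_add]
  obtain ⟨r, hr0, hrτ⟩ : ∃ r : ℝ, 0 < r ∧ ENNReal.ofReal r ≤ τ := by
    by_cases hT : τ = ⊤
    · exact ⟨1, one_pos, by rw [hT]; exact le_top⟩
    · exact ⟨τ.toReal, ENNReal.toReal_pos hτ.ne' hT, by rw [ENNReal.ofReal_toReal hT]⟩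
  refine le_trans ?_ hrτ
  -- a cover by small balls
  obtain ⟨t, ht⟩ := h.exists_net (show 0 < ε / 4 by linarith)
  set α : Finset (Set X) := t.image fun z => {y | d z y < ε / 4} with hα
  have hαo : ∀ U ∈ α, IsOpen U := by
    intro U hU
    obtain ⟨z, _, rfl⟩ := Finset.mem_image.1 hU
    exact h.isOpen_ball z _
  have hαc : ∀ x : X, ∃ U ∈ α, x ∈ U := by
    intro x
    obtain ⟨z, hz, hxz⟩ := ht x
    refine ⟨_, Finset.mem_image_of_mem _ hz, ?_⟩
    simp only [Set.mem_setOf_eq]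
    rw [h.symm]; exact hxz
  refine limsup_le_of_le (by isBoundedDefault) ?_
  filter_upwards [Run7.h276.Mdim.mdim0 α hαo hαc r hr0, eventually_ge_atTop 1] with n hn hn1
  obtain ⟨γ, h1, h2, h3, h4⟩ := hn
  have hn0 : (0 : ℝ) < n := by exact_mod_cast hn1
  have hord : ∀ x : X, {V | V ∈ γ ∧ x ∈ V}.ncard ≤ ⌊r * n⌋₊ + 1 := by
    intro x
    have h5 := h4 x (γ.filter fun V => x ∈ V) (Finset.filter_subset _ _)
      (fun V hV => (Finset.mem_filter.1 hV).2)
    have h6 : {V | V ∈ γ ∧ x ∈ V} = ((γ.filter fun V => x ∈ V : Finset (Set X)) : Set (Set X)) := by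
      ext V; simp
    rw [h6, Set.ncard_coe_finset]
    rw [pow_one] at h5
    have h7 : (((γ.filter fun V => x ∈ V).card - 1 : ℕ) : ℝ) ≤ r * n := by
      rcases Nat.eq_zero_or_pos (γ.filter fun V => x ∈ V).card with h0 | h0
      · rw [h0]; simp; positivity
      · rw [Nat.cast_sub h0]; push_cast; linarith
    have h8 := Nat.le_floor h7
    omega
  obtain ⟨n', P, f, hP1, hP2, hf1, hf2, hf3⟩ := Run7.h276.Nerve.exists_map γ h1 h2 _ hord
  have hW : Widim (dN 1 d n) ε ≤ (⌊r * n⌋₊ : ℝ≥0∞) := by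
    unfold Widim
    refine iInf₂_le (⌊r * n⌋₊) ⟨n', P, f, hP1, hP2, hf1, hf2, ε / 2, by linarith, ?_⟩
    intro x y hxy
    obtain ⟨V, hV, hxV, hyV⟩ := hf3 x y hxy
    obtain ⟨c, hc1, hc2⟩ := h3 V hV
    refine dN_le h (by linarith) fun i hi => ?_
    have hg : ∀ l, 0 ≤ (ge (i : ℤ)) l ∧ (ge (i : ℤ)) l < (n : ℤ) := by
      intro l
      simp only [ge]
      omega
    have hx := hc2 x hxV (ge i) hg
    have hy := hc2 y hyV (ge i) hg
    obtain ⟨z, _, hz⟩ := Finset.mem_image.1 (hc1 (ge i) hg)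
    rw [← hz] at hx hy
    simp only [Set.mem_setOf_eq] at hx hy
    rw [S_iterate, S_iterate]
    have := h.tri (ge i +ᵥ x) z (ge i +ᵥ y)
    rw [h.symm (ge i +ᵥ x) z] at this
    linarith
  rw [pow_one, ENNReal.div_le_iff (by exact_mod_cast hn0.ne') (by simp)]
  refine hW.trans ?_
  rw [← ENNReal.ofReal_natCast n, ← ENNReal.ofReal_mul hr0.le, ← ENNReal.ofReal_natCast]
  exact ENNReal.ofReal_le_ofReal (Nat.floor_le (by positivity))

theorem mmdim_pos {d : X → X → ℝ} (h : Compat d) : 0 < mmdim 1 d := by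
  classical
  obtain ⟨c₀, hc₀, ε₀, hε₀, hε₀1, hmain⟩ := metric_lower h
  refine lt_of_lt_of_le (ENNReal.ofReal_pos.2 hc₀) ?_
  unfold mmdim
  refine le_liminf_of_le (by isBoundedDefault) ?_
  have hmem : Set.Ioo (0 : ℝ) ε₀ ∈ 𝓝[>] (0 : ℝ) := Ioo_mem_nhdsGT hε₀
  filter_upwards [hmem] with ε hε
  have hL : 0 < Real.log (1 / ε) := by
    apply Real.log_pos
    rw [lt_div_iff₀ hε.1]
    linarith [hε.2]
  rw [ENNReal.le_div_iff_mul_le (Or.inl (by simpa using hL)) (Or.inl ENNReal.ofReal_ne_top),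
    ← ENNReal.ofReal_mul hc₀.le]
  refine le_liminf_of_le (by isBoundedDefault) ?_
  filter_upwards [hmain ε hε.1 hε.2, eventually_ge_atTop 1] with n hn hn1
  have hne : {c : ℕ | ∃ F : Finset (Set X), F.card = c ∧ (∀ A ∈ F, IsOpen A) ∧
      ⋃₀ (F : Set (Set X)) = Set.univ ∧ ∀ A ∈ F, ∃ δ < ε, ∀ x ∈ A, ∀ y ∈ A,
        dN 1 d n x y ≤ δ}.Nonempty := by
    -- open cover by Bowen balls
    have hε4 : 0 < ε / 4 := by linarith [hε.1]
    have hT : Continuous (⇑S) := S.continuous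
    have hop : ∀ x : X, IsOpen {y | ∀ i ∈ Finset.range n, d ((⇑S)^[i] x) ((⇑S)^[i] y) < ε / 4} := by
      intro x
      have e : {y | ∀ i ∈ Finset.range n, d ((⇑S)^[i] x) ((⇑S)^[i] y) < ε / 4} =
          ⋂ i ∈ Finset.range n, ((⇑S)^[i]) ⁻¹' {z | d ((⇑S)^[i] x) z < ε / 4} := by
        ext y; simp
      rw [e]
      exact isOpen_biInter_finset fun i _ => (h.isOpen_ball _ _).preimage (hT.iterate i)
    obtain ⟨t, ht⟩ := CompactSpace.elim_nhds_subcover _ (fun x : X => (hop x).mem_nhds (by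
      intro i _
      rw [h.self]; exact hε4))
    refine ⟨_, t.image fun x => {y | ∀ i ∈ Finset.range n,
      d ((⇑S)^[i] x) ((⇑S)^[i] y) < ε / 4}, rfl, ?_, ?_, ?_⟩
    · intro A hA
      obtain ⟨x, _, rfl⟩ := Finset.mem_image.1 hA
      exact hop x
    · rw [Set.eq_univ_iff_forall]
      intro x
      have : x ∈ (⊤ : Set X) := trivial
      rw [← ht] at this
      obtain ⟨z, hz, hz'⟩ := Set.mem_iUnion₂.1 this
      exact ⟨_, Finset.mem_coe.2 (Finset.mem_image_of_mem _ hz), hz'⟩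
    · intro A hA
      obtain ⟨z, _, rfl⟩ := Finset.mem_image.1 hA
      refine ⟨ε / 2, by linarith [hε.1], fun x hx y hy => dN_le h (by linarith) fun i hi => ?_⟩
      have h1 := hx i (Finset.mem_range.2 hi)
      have h2 := hy i (Finset.mem_range.2 hi)
      have h3 := h.tri ((⇑S)^[i] x) ((⇑S)^[i] z) ((⇑S)^[i] y)
      rw [h.symm ((⇑S)^[i] x) ((⇑S)^[i] z)] at h3
      linarith
  obtain ⟨F, hF1, hF2, hF3, hF4⟩ := Nat.sInf_mem hne
  apply ENNReal.ofReal_le_ofReal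
  rw [pow_one, le_div_iff₀ (by exact_mod_cast hn1)]
  unfold covNum
  rw [← hF1]
  refine hn F hF3 fun A hA x hx y hy i hi => ?_
  obtain ⟨δ, hδ, hδ'⟩ := hF4 A hA
  exact ((le_dN h hi).trans (hδ' x hx y hy)).trans_lt hδ

theorem result : ∃ (X : Type) (_ : TopologicalSpace X) (_ : CompactSpace X)
    (_ : TopologicalSpace.MetrizableSpace X) (_ : AddAction (Fin 1 → ℤ) X)
    (_ : ContinuousConstVAdd (Fin 1 → ℤ) X),
    ∀ d : X → X → ℝ, CompatibleMetric X d → mdim 1 d = 0 ∧ 0 < mmdim 1 d := by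
  refine ⟨Run7.h276.Sys.X, inferInstance, inferInstance, inferInstance, inferInstance,
    inferInstance, fun d hd => ?_⟩
  have hc : Compat d := ⟨hd.eq_zero_iff, hd.symm, hd.triangle, hd.isOpen_iff⟩
  exact ⟨mdim_zero hc, mmdim_pos hc⟩

end Pool.Agent.Results.MP_473a82_an.NoGoodMetric
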